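import Pool.Agent.Lib.MP_610fe3_an.TM.Plaque

/-!
# Minimal chains of unstable steps

`f` is a homeomorphism of a compact metric space, `U` a trapping region, `Att f U` the attractor,
`Rep f U` the dual repeller.  A link is a pair of points at (ambient) distance at most `r` whose
backward iterates stay `e`-close; `Chn f e r k p q` says that `p` and `q` are joined by a chain of
`k` links.
-/

open Set Filter Function
open scoped Topology

namespace Pool.Agent.Lib.MP610fe3.N3

open TM

variable {X : Type*} [MetricSpace X] {f : X ≃ₜ X}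

/-- An unstable link. -/
def Link (f : X ≃ₜ X) (e r : ℝ) (p q : X) : Prop := dist q p ≤ r ∧ q ∈ Sp f.symm e p

/-- A chain of `k` unstable links. -/
def Chn (f : X ≃ₜ X) (e r : ℝ) (k : ℕ) (p q : X) : Prop :=
  ∃ s : ℕ → X, s 0 = p ∧ s k = q ∧ ∀ i < k, Link f e r (s i) (s (i + 1))

variable {e r r' : ℝ} {k l n : ℕ} {p q w : X}

theorem Link.mono (h : Link f e r p q) (hr : r ≤ r') : Link f e r' p q := ⟨h.1.trans hr, h.2⟩

theorem Chn.mono (h : Chn f e r k p q) (hr : r ≤ r') : Chn f e r' k p q := by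
  obtain ⟨s, h0, hk, hs⟩ := h
  exact ⟨s, h0, hk, fun i hi => (hs i hi).mono hr⟩

theorem Chn.refl (f : X ≃ₜ X) (e r : ℝ) (p : X) : Chn f e r 0 p p :=
  ⟨fun _ => p, rfl, rfl, fun i hi => absurd hi (Nat.not_lt_zero i)⟩

theorem Chn.trans (h1 : Chn f e r k p q) (h2 : Chn f e r l q w) : Chn f e r (k + l) p w := by
  obtain ⟨s, hs0, hsk, hs⟩ := h1
  obtain ⟨t, ht0, htl, ht⟩ := h2
  refine ⟨fun i => if i < k then s i else t (i - k), ?_, ?_, fun i hi => ?_⟩
  · rcases Nat.eq_zero_or_pos k with rfl | hk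
    · simp [ht0, ← hsk, hs0]
    · simp [hk, hs0]
  · simp [htl]
  · rcases lt_trichotomy (i + 1) k with h | h | h
    · have h' : i < k := by omega
      simp only [h, h', if_true]
      exact hs i h'
    · have h' : i < k := by omega
      have h'' : ¬ (i + 1 < k) := by omega
      simp only [h', h'', if_true, if_false]
      rw [show i + 1 - k = 0 by omega, ht0, ← hsk, ← h]
      exact hs i h'
    · have h' : ¬ (i < k) := by omega
      have h'' : ¬ (i + 1 < k) := by omega
      simp only [h', h'', if_false]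
      rw [show i + 1 - k = (i - k) + 1 by omega]
      exact ht _ (by omega)

theorem Chn.single (h : Link f e r p q) : Chn f e r 1 p q :=
  ⟨fun i => if i = 0 then p else q, by simp, by simp, fun i hi => by
    obtain rfl : i = 0 := by omega
    simpa using h⟩

/-- The tail of a chain. -/
theorem chn_tail {s : ℕ → X} (hs : ∀ i < k, Link f e r (s i) (s (i + 1))) (hl : l ≤ k) :
    Chn f e r (k - l) (s l) (s k) :=
  ⟨fun i => s (i + l), by simp, by simp [Nat.sub_add_cancel hl], fun i hi => by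
    have := hs (i + l) (by omega)
    rwa [show i + l + 1 = i + 1 + l by omega] at this⟩

theorem chn_head {s : ℕ → X} (hs : ∀ i < k, Link f e r (s i) (s (i + 1))) (hl : l ≤ k) :
    Chn f e r l (s 0) (s l) :=
  ⟨s, rfl, rfl, fun i hi => hs i (by omega)⟩

/-! ### Attractor and repeller -/

/-- The attractor in `U`. -/
def Att (f : X ≃ₜ X) (U : Set X) : Set X := {x | ∀ n : ℕ, ev f (-n) x ∈ U}

/-- The dual repeller. -/
def Rep (f : X ≃ₜ X) (U : Set X) : Set X := {x | ∀ n : ℕ, ev f n x ∉ U}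

/-- A trapping region. -/
structure Trap (f : X ≃ₜ X) (U : Set X) : Prop where
  isOpen : IsOpen U
  maps : ∀ x ∈ closure U, f x ∈ U

variable {U : Set X}

theorem Trap.fwd (h : Trap f U) {x : X} (hx : x ∈ U) (n : ℕ) : ev f n x ∈ U := by
  induction n with
  | zero => simpa using hx
  | succ n ih =>
    rw [Nat.cast_succ, add_comm, ev_add, ev_one]
    exact h.maps _ (subset_closure ih)

theorem Trap.bwd (h : Trap f U) {x : X} (hx : x ∉ U) (n : ℕ) : ev f (-n) x ∉ U := by
  intro hn
  have := h.fwd hn n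
  rw [ev_ev_neg] at this
  exact hx this

theorem att_sub {x : X} (hx : x ∈ Att f U) : x ∈ U := by simpa using hx 0

theorem att_ev {x : X} (h : Trap f U) (hx : x ∈ Att f U) (k : ℤ) : ev f k x ∈ Att f U := by
  intro n
  rw [← ev_add]
  rcases le_or_gt 0 (-(n : ℤ) + k) with h1 | h1
  · obtain ⟨i, hi⟩ : ∃ i : ℕ, -(n : ℤ) + k = i := ⟨(-(n : ℤ) + k).toNat, by omega⟩
    rw [hi]
    exact h.fwd (att_sub hx) i
  · obtain ⟨i, hi⟩ : ∃ i : ℕ, -(n : ℤ) + k = -i := ⟨(-(-(n : ℤ) + k)).toNat, by omega⟩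
    rw [hi]
    exact hx i

theorem rep_ev {x : X} (hx : x ∈ Rep f U) (k : ℕ) : ev f k x ∈ Rep f U := by
  intro n
  rw [← ev_add]
  exact_mod_cast hx (n + k)

theorem att_rep_disjoint : Disjoint (Att f U) (Rep f U) := by
  rw [Set.disjoint_left]
  intro x hx hx'
  exact hx' 0 (by simpa using att_sub hx)

variable [CompactSpace X]

/-- The image of the closure of `U` is far from the complement of `U`. -/
theorem Trap.exists_margin (h : Trap f U) : ∃ η : ℝ, 0 < η ∧ ∀ x ∈ U, ∀ y, dist y (f x) < η →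
    y ∈ U := by
  have h1 : IsCompact (f '' closure U) := isClosed_closure.isCompact.image f.continuous
  have h2 : f '' closure U ⊆ U := by
    rintro _ ⟨x, hx, rfl⟩
    exact h.maps x hx
  obtain ⟨η, hη, h3⟩ := h1.exists_thickening_subset_open h.isOpen h2
  refine ⟨η, hη, fun x hx y hy => h3 ?_⟩
  rw [Metric.mem_thickening_iff]
  exact ⟨f x, ⟨x, subset_closure hx, rfl⟩, hy⟩

/-- The repeller is saturated by stable leaves. -/
theorem rep_sat (h : Trap f U) {x y : X} (hx : x ∈ Rep f U)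
    (hxy : Tendsto (fun n : ℕ => dist (ev f n y) (ev f n x)) atTop (𝓝 0)) : y ∈ Rep f U := by
  obtain ⟨η, hη, hm⟩ := h.exists_margin
  intro n hn
  obtain ⟨N, hN⟩ := (Metric.tendsto_atTop.1 hxy) η hη
  have h1 := hN (N + n + 1) (by omega)
  rw [Real.dist_0_eq_abs, abs_of_nonneg dist_nonneg] at h1
  have h2 : ev f ((N + n : ℕ) : ℤ) y ∈ U := by
    have := h.fwd hn N
    rw [← ev_add] at this
    exact_mod_cast this
  have h3 : f (ev f ((N + n : ℕ) : ℤ) y) = ev f ((N + n + 1 : ℕ) : ℤ) y := by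
    rw [← ev_one, ← ev_add]
    congr 1
    push_cast
    ring
  refine hx (N + n + 1) (hm _ h2 _ ?_)
  rw [h3, dist_comm]
  exact h1

/-- The attractor is saturated by unstable leaves. -/
theorem att_sat (h : Trap f U) {x y : X} (hx : x ∈ Att f U)
    (hxy : Tendsto (fun n : ℕ => dist (ev f (-n) y) (ev f (-n) x)) atTop (𝓝 0)) :
    y ∈ Att f U := by
  obtain ⟨η, hη, hm⟩ := h.exists_margin
  intro n
  by_contra hn
  obtain ⟨N, hN⟩ := (Metric.tendsto_atTop.1 hxy) η hη
  have h1 := hN (N + n) (by omega)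
  rw [Real.dist_0_eq_abs, abs_of_nonneg dist_nonneg] at h1
  have h2 : ev f (-((N + n : ℕ) : ℤ)) y ∉ U := by
    have := h.bwd hn N
    rw [← ev_add] at this
    rwa [show -(N : ℤ) + -(n : ℤ) = -((N + n : ℕ) : ℤ) by push_cast; ring] at this
  have h3 : f (ev f (-((N + n + 1 : ℕ) : ℤ)) x) = ev f (-((N + n : ℕ) : ℤ)) x := by
    rw [← ev_one, ← ev_add]
    congr 1
    push_cast
    ring
  refine h2 (hm _ (hx (N + n + 1)) _ ?_)
  rw [h3]
  exact h1

end Pool.Agent.Lib.MP610fe3.N3
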