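import Pool.Agent.Lib.MP_610fe3_an.N3.Growth
import Pool.Agent.Lib.MP_610fe3_an.Cf.Defs

/-!
# The minimal chain principle, in terms of local stable and unstable sets `Wl`
-/

open Set Filter Function
open scoped Topology

namespace Pool.Agent.Lib.MP610fe3.N3

open TM

variable {X : Type*} [MetricSpace X] {f : X ≃ₜ X}
variable {U P : Set X} {ε₀ e₁ C a aA as b bs b₀ : ℝ}

theorem Sp_eq_Wl (f : X ≃ₜ X) (ε : ℝ) (x : X) : Sp f ε x = Cf.Wl f ε x := by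
  ext y
  simp only [Sp, Cf.Wl, mem_ofPred_eq, ev_nat]

/-- Points of `P` in a common plaque of size `e₁` are joined by `Λ exp (b m)` points whose `m`-th
images are successively in plaques of size `r`. -/
def ReachW (f : X ≃ₜ X) (P : Set X) (e₁ b : ℝ) : Prop :=
  ∀ r : ℝ, 0 < r → ∃ Λ : ℝ, ∀ m : ℕ, ∀ p ∈ P, ∀ q ∈ P, q ∈ Cf.Wl f.symm e₁ p →
    ∃ (K : ℕ) (x : ℕ → X), (K : ℝ) ≤ Λ * Real.exp (b * m) ∧ x 0 = p ∧ x K = q ∧
      ∀ i < K, f^[m] (x (i + 1)) ∈ Cf.Wl f.symm r (f^[m] (x i))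

theorem chn_of_wl {r : ℝ} {m K : ℕ} {x : ℕ → X}
    (h : ∀ i < K, f^[m] (x (i + 1)) ∈ Cf.Wl f.symm r (f^[m] (x i))) :
    Chn f r r K (ev f m (x 0)) (ev f m (x K)) := by
  refine ⟨fun i => ev f m (x i), rfl, rfl, fun i hi => ?_⟩
  have h1 := h i hi
  rw [← Sp_eq_Wl] at h1
  simp only [ev_nat]
  exact ⟨Sp_dist h1, h1⟩

theorem ReachW.reaches (h : ReachW f (f ⁻¹' U) e₁ b) : Reaches f U e₁ b := by
  intro r hr
  obtain ⟨Λ, hΛ⟩ := h r hr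
  refine ⟨Λ, fun m p q hp hq hpq => ?_⟩
  rw [Sp_eq_Wl] at hpq
  obtain ⟨K, x, hK, h0, hxK, hx⟩ := hΛ m p hp q hq hpq
  refine ⟨K, hK, ?_⟩
  rw [← h0, ← hxK]
  exact chn_of_wl hx

theorem ReachW.reaches₀ (h : ReachW f univ e₁ b) : Reaches₀ f e₁ := by
  intro r hr m
  obtain ⟨Λ, hΛ⟩ := h r hr
  refine ⟨⌊Λ * Real.exp (b * m)⌋₊, fun p q hpq => ?_⟩
  rw [Sp_eq_Wl] at hpq
  obtain ⟨K, x, hK, h0, hxK, hx⟩ := hΛ m p (mem_univ _) q (mem_univ _) hpq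
  refine ⟨K, Nat.le_floor hK, ?_⟩
  rw [← h0, ← hxK]
  exact chn_of_wl hx

/-- **The minimal chain principle.** -/
theorem principle [CompactSpace X] (hε₀ : 0 < ε₀) (hC : 1 ≤ C) (ha : 0 < a) (has : 0 < as)
    (hun : ∀ p, ∀ q ∈ Cf.Wl f.symm ε₀ p, ∀ j : ℕ,
      dist (f.symm^[j] q) (f.symm^[j] p) ≤ C * Real.exp (-(a * j)) * dist q p)
    (hunA : ∀ p, ∀ q ∈ Cf.Wl f.symm ε₀ p, ∀ i : ℕ, (∀ t < i, f.symm^[t] p ∈ U) →
      dist (f.symm^[i] q) (f.symm^[i] p) ≤ C * Real.exp (-(aA * i)) * dist q p)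
    (hst : ∀ p, ∀ q ∈ Cf.Wl f ε₀ p, ∀ j : ℕ,
      dist (f^[j] q) (f^[j] p) ≤ C * Real.exp (-(as * j)) * dist q p)
    (hbr : ∀ ε : ℝ, 0 < ε → ∃ δ : ℝ, 0 < δ ∧ ∀ x y, dist x y < δ →
      ∃ z, z ∈ Cf.Wl f ε x ∧ z ∈ Cf.Wl f.symm ε y)
    (hU : IsOpen U) (htrap : f '' closure U ⊆ U) (hfr : (frontier U).Nonempty)
    (he₁ : 0 < e₁) (hb : 0 < b) (hbs : 0 < bs)
    (h0 : ReachW f univ e₁ b₀) (h0' : ReachW f.symm univ e₁ b₀)
    (h1 : ReachW f (f ⁻¹' U) e₁ b) (h1' : ReachW f.symm (f.symm ⁻¹' (closure U)ᶜ) e₁ bs) :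
    a * as ≤ (b - aA) * (bs - as) := by
  have hT : Trap f U := ⟨hU, fun x hx => htrap ⟨x, hx, rfl⟩⟩
  have R : Rates f U ε₀ C aA a as := by
    refine ⟨hε₀, hC, ha, has, fun p q hq j => ?_, fun p q hq i hi => ?_, fun p q hq j => ?_,
      fun e' he' => ?_⟩
    · rw [Sp_eq_Wl] at hq
      rw [ev_neg_nat, ev_neg_nat]
      exact hun p q hq j
    · rw [Sp_eq_Wl] at hq
      rw [ev_neg_nat, ev_neg_nat]
      refine hunA p q hq i fun t ht => ?_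
      have := hi t ht
      rwa [ev_neg_nat] at this
    · rw [Sp_eq_Wl] at hq
      rw [ev_nat, ev_nat]
      exact hst p q hq j
    · simp only [Sp_eq_Wl]
      exact hbr e' he'
  exact not_lt.1 (main' R hT hfr he₁ hb hbs h0.reaches₀ h0'.reaches₀ h1.reaches h1'.reaches)

end Pool.Agent.Lib.MP610fe3.N3
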