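import Pool.Agent.Lib.MP_610fe3_an.N3.Main

/-!
# The number of links from a point outside the trapping region to the repeller
-/

open Set Filter Function
open scoped Topology

namespace Pool.Agent.Lib.MP610fe3.N3

open TM

variable {X : Type*} [MetricSpace X] {f : X ≃ₜ X}
variable {U : Set X} {e e₁ e₂ C r b B Λ : ℝ} {k n m : ℕ} {y : X}

/-- Points of a plaque of size `e₁` (inside `f⁻¹ U`) are joined by at most `Λ exp (b m)` links of
size `r` at the time `m`. -/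
def Reaches (f : X ≃ₜ X) (U : Set X) (e₁ b : ℝ) : Prop :=
  ∀ r : ℝ, 0 < r → ∃ Λ : ℝ, ∀ (m : ℕ) (p q : X), f p ∈ U → f q ∈ U → q ∈ Sp f.symm e₁ p →
    ∃ k : ℕ, (k : ℝ) ≤ Λ * Real.exp (b * m) ∧ Chn f r r k (ev f m p) (ev f m q)

/-- The crude version on the whole space. -/
def Reaches₀ (f : X ≃ₜ X) (e₁ : ℝ) : Prop :=
  ∀ r : ℝ, 0 < r → ∀ m : ℕ, ∃ K : ℕ, ∀ (p q : X), q ∈ Sp f.symm e₁ p →
    ∃ k : ℕ, k ≤ K ∧ Chn f r r k (ev f m p) (ev f m q)

theorem Link.mono_e {p q : X} (h : Link f e r p q) (he : e ≤ e₁) : Link f e₁ r p q :=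
  ⟨h.1, fun k => (h.2 k).trans he⟩

theorem Chn.mono_e {p q : X} (h : Chn f e r k p q) (he : e ≤ e₁) : Chn f e₁ r k p q := by
  obtain ⟨s, h0, hk, hs⟩ := h
  exact ⟨s, h0, hk, fun i hi => (hs i hi).mono_e he⟩

variable [CompactSpace X]

/-- The points of the complement of `f U` come close to the repeller in the past. -/
theorem close_rep (hT : Trap f U) {δ : ℝ} (hδ : 0 < δ) :
    ∃ N : ℕ, ∀ z, ev f (-1) z ∉ U → ∃ w ∈ Rep f U, dist w (ev f (-(N : ℤ)) z) < δ := by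
  by_contra hnot
  push Not at hnot
  choose z hz hd using hnot
  obtain ⟨w, -, ψ, hψ, hlim⟩ := (isCompact_univ (X := X)).tendsto_subseq
    (x := fun n => ev f (-(n : ℤ)) (z n)) (fun _ => mem_univ _)
  have hw : w ∈ Rep f U := by
    intro j
    have h1 : Tendsto (fun n => ev f j (ev f (-((ψ n : ℕ) : ℤ)) (z (ψ n)))) atTop
        (𝓝 (ev f j w)) := ((continuous_ev (f := f) j).tendsto w).comp hlim
    have hcl : IsClosed Uᶜ := hT.isOpen.isClosed_compl
    refine hcl.mem_of_tendsto h1 ?_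
    filter_upwards [eventually_ge_atTop (j + 1)] with n hn
    have h2 : j + 1 ≤ ψ n := hn.trans (hψ.id_le n)
    obtain ⟨t, ht⟩ := Nat.exists_eq_add_of_le h2
    rw [mem_compl_iff, ← ev_add, ht,
      show (j : ℤ) + -((j + 1 + t : ℕ) : ℤ) = -(t : ℤ) + -1 by push_cast; ring, ev_add]
    have := hT.bwd (hz (j + 1 + t)) t
    exact this
  have h3 : ∀ᶠ n in atTop, dist w (ev f (-((ψ n : ℕ) : ℤ)) (z (ψ n))) < δ := by
    have h4 : Tendsto (fun n => dist w (ev f (-((ψ n : ℕ) : ℤ)) (z (ψ n)))) atTop (𝓝 (dist w w)) :=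
      tendsto_const_nhds.dist hlim
    rw [dist_self] at h4
    exact h4.eventually_lt_const hδ
  obtain ⟨n, hn⟩ := h3.exists
  exact absurd hn (not_lt.2 (hd (ψ n) w hw))

/-- Every point outside `f U` is joined to the repeller by a bounded number of links. -/
theorem exists_F2 (hT : Trap f U) (he : 0 < e)
    (hst : ∀ p q, q ∈ Sp f e p → Tendsto (fun n : ℕ => dist (ev f n q) (ev f n p)) atTop (𝓝 0))
    (hbr : ∀ e' : ℝ, 0 < e' → ∃ δ : ℝ, 0 < δ ∧ ∀ x y, dist x y < δ →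
      ∃ z, z ∈ Sp f e' x ∧ z ∈ Sp f.symm e' y)
    (he₁ : 0 < e₁) (h0 : Reaches₀ f e₁) (hr : 0 < r) :
    ∃ K : ℕ, ∀ z, ev f (-1) z ∉ U → ∃ k ≤ K, ∃ q ∈ Rep f U, Chn f r r k z q := by
  obtain ⟨δ, hδ, hb⟩ := hbr (min e e₁) (lt_min he he₁)
  obtain ⟨N, hN⟩ := close_rep hT hδ
  obtain ⟨K, hK⟩ := h0 r hr N
  refine ⟨K, fun z hz => ?_⟩
  obtain ⟨w, hw, hwd⟩ := hN z hz
  obtain ⟨v, hv1, hv2⟩ := hb _ _ hwd
  have hv : v ∈ Rep f U := rep_sat hT hw (hst _ _ (Sp_mono (min_le_left _ _) hv1))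
  obtain ⟨k, hk, hc⟩ := hK _ _ (Sp_mono (min_le_right _ _) hv2)
  rw [ev_ev_neg] at hc
  exact ⟨k, hk, _, rep_ev hv N, hc⟩

omit [CompactSpace X] in
/-- Composition of many chains. -/
theorem chn_concat {t : ℕ → X} {l : ℕ} {c : ℝ}
    (h : ∀ i < l, ∃ k : ℕ, (k : ℝ) ≤ c ∧ Chn f e r k (t i) (t (i + 1))) :
    ∃ k : ℕ, (k : ℝ) ≤ l * c ∧ Chn f e r k (t 0) (t l) := by
  induction l with
  | zero => exact ⟨0, by simp, Chn.refl f e r _⟩
  | succ l ih =>
    obtain ⟨k, hk, hc⟩ := ih fun i hi => h i (by omega)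
    obtain ⟨k', hk', hc'⟩ := h l (by omega)
    refine ⟨k + k', ?_, hc.trans hc'⟩
    push_cast
    linarith

/-- **Growth of the number of links.** -/
theorem exists_JBound (hT : Trap f U) (he : 0 < e)
    (hst : ∀ p q, q ∈ Sp f e p → Tendsto (fun n : ℕ => dist (ev f n q) (ev f n p)) atTop (𝓝 0))
    (hbr : ∀ e' : ℝ, 0 < e' → ∃ δ : ℝ, 0 < δ ∧ ∀ x y, dist x y < δ →
      ∃ z, z ∈ Sp f e' x ∧ z ∈ Sp f.symm e' y)
    (he₁ : 0 < e₁) (h0 : Reaches₀ f e₁) (hb : 0 < b) (h1 : Reaches f U e₁ b) {r : ℝ}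
    (hr : 0 < r) : ∃ B : ℝ, JBound f U e r b B := by
  classical
  obtain ⟨η, hη, hmar⟩ := hT.exists_margin
  obtain ⟨ε', hε', huc⟩ := unif_cont f 1 hη
  set r' : ℝ := min e₁ (ε' / 2) with hr'
  have hr'0 : 0 < r' := lt_min he₁ (by positivity)
  obtain ⟨K₁, hK₁⟩ := exists_F2 hT he hst hbr he₁ h0 hr'0
  set r₀ : ℝ := min e r with hr₀
  have hr₀0 : 0 < r₀ := lt_min he hr
  obtain ⟨K₀, hK₀⟩ := exists_F2 hT he hst hbr he₁ h0 hr₀0
  obtain ⟨Λ₀, hΛ₀⟩ := h1 r₀ hr₀0
  set Λ : ℝ := max Λ₀ 0 with hΛ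
  have hΛ0 : 0 ≤ Λ := le_max_right _ _
  have hexpb : 1 < Real.exp b := Real.one_lt_exp_iff.2 hb
  set E : ℝ := Real.exp b - 1 with hE
  have hE0 : 0 < E := by rw [hE]; linarith
  set B : ℝ := max (K₀ : ℝ) (K₁ * Λ * Real.exp b / E) with hB
  have hB1 : (K₀ : ℝ) ≤ B := le_max_left _ _
  have hB2 : K₁ * Λ * Real.exp b ≤ B * E := by
    have : K₁ * Λ * Real.exp b / E ≤ B := le_max_right _ _
    rwa [div_le_iff₀ hE0] at this
  have hB0 : 0 ≤ B := (Nat.cast_nonneg _).trans hB1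
  have key : ∀ n : ℕ, ∀ z, ev f (-1) z ∉ U → ∃ k : ℕ, (k : ℝ) ≤ B * Real.exp (b * n) ∧
      ∃ q ∈ Rep f U, Chn f r₀ r₀ k (ev f n z) q := by
    intro n
    induction n with
    | zero =>
      intro z hz
      obtain ⟨k, hk, q, hq, hc⟩ := hK₀ z hz
      refine ⟨k, ?_, q, hq, by simpa using hc⟩
      have h2 : (k : ℝ) ≤ K₀ := by exact_mod_cast hk
      simp only [Nat.cast_zero, mul_zero, Real.exp_zero, mul_one]
      linarith
    | succ n ih =>
      intro z hz
      obtain ⟨k, hk, q, hq, t, ht0, htk, ht⟩ := hK₁ z hz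
      have hex : ∃ l : ℕ, l ≤ k ∧ t l ∉ U := by
        refine ⟨k, le_rfl, ?_⟩
        rw [htk]
        simpa using hq 0
      obtain ⟨hl1, hl2⟩ := Nat.find_spec hex
      set l := Nat.find hex with hl
      have hlmin : ∀ i < l, t i ∈ U := by
        intro i hi
        by_contra h
        exact Nat.find_min hex hi ⟨by omega, h⟩
      -- the links before `l`
      have hlinks : ∀ i < l, ∃ k' : ℕ, (k' : ℝ) ≤ Λ * Real.exp (b * (n + 1 : ℕ)) ∧
          Chn f r₀ r₀ k' (ev f (n + 1 : ℕ) (t i)) (ev f (n + 1 : ℕ) (t (i + 1))) := by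
        intro i hi
        have h2 := ht i (by omega)
        have h3 : f (t i) ∈ U := hT.maps _ (subset_closure (hlmin i hi))
        have h4 : f (t (i + 1)) ∈ U := by
          refine hmar (t i) (hlmin i hi) _ ?_
          have h5 := huc (t (i + 1)) (t i) (h2.1.trans_lt
            ((min_le_right _ _).trans_lt (by linarith))) 1 (by norm_num) (by norm_num)
          rwa [ev_one, ev_one] at h5
        obtain ⟨k', hk', hc⟩ := hΛ₀ (n + 1) (t i) (t (i + 1)) h3 h4
          (Sp_mono (min_le_left _ _) h2.2)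
        refine ⟨k', hk'.trans ?_, hc⟩
        have : Λ₀ ≤ Λ := le_max_left _ _
        gcongr
      obtain ⟨k₁, hk₁, hc₁⟩ := chn_concat (t := fun i => ev f (n + 1 : ℕ) (t i)) hlinks
      -- the rest
      have h5 : ev f (-1) (f (t l)) ∉ U := by
        rw [← ev_one (f := f), ← ev_add]
        simpa using hl2
      obtain ⟨k₂, hk₂, q₂, hq₂, hc₂⟩ := ih _ h5
      have h6 : ev f n (f (t l)) = ev f (n + 1 : ℕ) (t l) := by
        rw [← ev_one (f := f), ← ev_add]
        push_cast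
        rfl
      rw [h6] at hc₂
      refine ⟨k₁ + k₂, ?_, q₂, hq₂, ?_⟩
      · have h7 : (l : ℝ) ≤ K₁ := by
          have : l ≤ K₁ := by omega
          exact_mod_cast this
        have h8 : Real.exp (b * (n + 1 : ℕ)) = Real.exp b * Real.exp (b * n) := by
          rw [← Real.exp_add]
          congr 1
          push_cast
          ring
        have h9 : 0 < Real.exp (b * n) := Real.exp_pos _
        have h10 : (l : ℝ) * (Λ * Real.exp (b * (n + 1 : ℕ))) ≤
            K₁ * (Λ * (Real.exp b * Real.exp (b * n))) := by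
          rw [h8]
          gcongr
        have h11 : K₁ * (Λ * (Real.exp b * Real.exp (b * n))) ≤
            (B * E) * Real.exp (b * n) := by
          calc K₁ * (Λ * (Real.exp b * Real.exp (b * n)))
              = (K₁ * Λ * Real.exp b) * Real.exp (b * n) := by ring
            _ ≤ _ := by gcongr
        rw [h8]
        push_cast
        have h12 : B * (Real.exp b * Real.exp (b * n)) =
            (B * E) * Real.exp (b * n) + B * Real.exp (b * n) := by
          rw [hE]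
          ring
        linarith
      · have h7 : ev f (n + 1 : ℕ) (t 0) = ev f (n + 1 : ℕ) z := by rw [ht0]
        rw [← h7]
        exact hc₁.trans hc₂
  refine ⟨B, fun m z hz => ?_⟩
  obtain ⟨k, hk, q, hq, hc⟩ := key m z (hT.bwd hz 1)
  exact ⟨k, hk, q, hq, (hc.mono_e (min_le_left _ _)).mono (min_le_right _ _)⟩

/-! ### The dual trapping region -/

omit [CompactSpace X] in
theorem Trap.dual (hT : Trap f U) : Trap f.symm (closure U)ᶜ := by
  refine ⟨isClosed_closure.isOpen_compl, fun x hx => ?_⟩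
  have h1 : closure (closure U)ᶜ ⊆ Uᶜ :=
    closure_minimal (compl_subset_compl.2 subset_closure) hT.isOpen.isClosed_compl
  intro h2
  have h3 := hT.maps _ h2
  rw [Homeomorph.apply_symm_apply] at h3
  exact h1 hx h3

omit [CompactSpace X] in
theorem rep_dual (hT : Trap f U) : Rep f.symm (closure U)ᶜ = Att f U := by
  ext x
  constructor
  · intro h n
    have h1 := h (n + 1)
    rw [mem_compl_iff, not_not, ev_symm] at h1
    have h2 := hT.maps _ h1
    rw [← ev_one (f := f), ← ev_add] at h2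
    rwa [show (1 : ℤ) + -((n + 1 : ℕ) : ℤ) = -(n : ℤ) by push_cast; ring] at h2
  · intro h n
    rw [mem_compl_iff, not_not, ev_symm]
    exact subset_closure (h n)

/-- **The minimal chain principle, from the growth of the plaques.** -/
theorem main' {a aA as bs C : ℝ} (R : Rates f U e C aA a as) (hT : Trap f U)
    (hfr : (frontier U).Nonempty) (he₁ : 0 < e₁)
    (hb : 0 < b) (hbs : 0 < bs) (h0 : Reaches₀ f e₁) (h0' : Reaches₀ f.symm e₁)
    (h1 : Reaches f U e₁ b) (h1' : Reaches f.symm (closure U)ᶜ e₁ bs) :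
    ¬ (b - aA) * (bs - as) < a * as := by
  have hbr' : ∀ e' : ℝ, 0 < e' → ∃ δ : ℝ, 0 < δ ∧ ∀ x y, dist x y < δ →
      ∃ z, z ∈ Sp f.symm e' x ∧ z ∈ Sp f.symm.symm e' y := by
    intro e' he'
    obtain ⟨δ, hδ, h⟩ := R.br e' he'
    refine ⟨δ, hδ, fun x y hxy => ?_⟩
    rw [dist_comm] at hxy
    obtain ⟨z, hz1, hz2⟩ := h _ _ hxy
    exact ⟨z, hz2, hz1⟩
  refine main R hT (fun r hr => exists_JBound hT R.e0 (fun p q h => R.st_tendsto h) R.br he₁ h0 hb
    h1 hr) (fun ε hε => ?_)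
  obtain ⟨B, hB⟩ := exists_JBound hT.dual R.e0 (fun p q h => by
    have := R.un_tendsto h
    simpa only [ev_symm] using this) hbr' he₁ h0' hbs h1' hε
  obtain ⟨y, hy⟩ := hfr
  refine ⟨B, fun m => ?_⟩
  obtain ⟨K, hK, q, hq, hc⟩ := hB m y (by
    rw [mem_compl_iff, not_not]
    exact hy.1)
  rw [rep_dual hT] at hq
  refine ⟨y, ?_, K, hK, q, hq, ?_⟩
  · rw [hT.isOpen.frontier_eq] at hy
    exact hy.2
  · rwa [ev_symm] at hc

end Pool.Agent.Lib.MP610fe3.N3
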