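import Pool.Agent.Lib.MP_610fe3_an.N3.Trans

/-!
# The minimal chain principle
-/

open Set Filter Function
open scoped Topology

namespace Pool.Agent.Lib.MP610fe3.N3

open TM

variable {X : Type*} [MetricSpace X] [CompactSpace X] {f : X ≃ₜ X}
variable {U : Set X} {e C aA a as r b bs B e' δ ε : ℝ} {k K n m : ℕ} {y : X}

/-- Transport along a stable chain. -/
theorem iterate (R : Rates f U e C aA a as) (hT : Trap f U) (hab : aA ≤ b) (hr : 0 < r)
    (hB : 0 ≤ B) (hJ : JBound f U e r b B) (he' : 0 < e') (he'4 : 4 * e' ≤ e)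
    (hr' : 4 * (C * r) ≤ e)
    (hbr : ∀ x z, dist x z < δ → ∃ w, w ∈ Sp f e' x ∧ w ∈ Sp f.symm e' z)
    (hε : C * ε ≤ e') (hεδ : ε < δ / 2)
    (h1 : C * C * (2 * r) * B * (n + 1) * Real.exp ((b - aA) * n - a * m) < δ / 2)
    (h2 : 2 * K * (C * Real.exp (-(as * (n + m : ℕ))) * e') ≤ r)
    (hy : y ∉ U) {q : X} (hc : Chn f.symm e ε K (ev f (-m) y) q) : q ∉ Att f U := by
  have hC := R.C1
  obtain ⟨t, ht0, htK, ht⟩ := hc
  set η : ℝ := C * Real.exp (-(as * (n + m : ℕ))) * e' with hη
  have hη0 : 0 ≤ η := by positivity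
  -- radii
  have hrad : ∀ i ≤ K, r + 2 * i * η ≤ 2 * r := by
    intro i hi
    have h3 : (i : ℝ) ≤ K := by exact_mod_cast hi
    have h4 : 2 * (i : ℝ) * η ≤ 2 * K * η := by gcongr
    linarith
  -- the minimal chains at the radius `r + 2 i η`
  have hmin : ∀ i ≤ K, ∀ k : ℕ, (k : ℝ) ≤ B * Real.exp (b * n) → ∀ w : X,
      Join f U e (r + 2 * i * η) k w → ∃ (k' : ℕ) (s : ℕ → X), (k' : ℝ) ≤ B * Real.exp (b * n) ∧
        s 0 = w ∧ MinCh f U e (r + 2 * i * η) k' s := by
    intro i _ k hk w hw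
    obtain ⟨k', s, hk', hs0, hs⟩ := hw.exists_min
    exact ⟨k', s, (Nat.cast_le.2 hk').trans hk, hs0, hs⟩
  have hr0 : ∀ i : ℕ, r ≤ r + 2 * i * η := fun i => by
    have : 0 ≤ 2 * (i : ℝ) * η := by positivity
    linarith
  have key : ∀ i ≤ K, ∃ k : ℕ, (k : ℝ) ≤ B * Real.exp (b * n) ∧
      Join f U e (r + 2 * i * η) k (ev f n (ev f m (t i))) := by
    intro i
    induction i with
    | zero =>
      intro _
      obtain ⟨k, hk, hj⟩ := hJ n y hy
      refine ⟨k, hk, ?_⟩
      rw [ht0, ev_ev_neg]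
      simpa using hj
    | succ i ih =>
      intro hi
      obtain ⟨k, hk, hj⟩ := ih (by omega)
      obtain ⟨k', s, hk', hs0, hs⟩ := hmin i (by omega) k hk _ hj
      refine ⟨k', hk', ?_⟩
      have hri := hrad i (by omega)
      have hJi : JBound f U e (r + 2 * i * η) b B := hJ.mono_r (hr0 i)
      have hr1 : 0 ≤ r + 2 * i * η := hr.le.trans (hr0 i)
      have hsp := hs.spread (m := m) R hT hJi hr1 hB le_rfl hab hk'
      have hlink := ht i (by omega)
      have hst : t (i + 1) ∈ Sp f e (t i) := hlink.2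
      have hst2 : ∀ j : ℕ, dist (ev f j (t (i + 1))) (ev f j (t i)) ≤ e' := by
        intro j
        have h3 := R.st _ _ hst j
        have h6 : Real.exp (-(as * j)) ≤ 1 := by
          rw [Real.exp_le_one_iff]
          have := R.as0
          have : 0 ≤ as * j := by positivity
          linarith
        have h8 : (0 : ℝ) ≤ dist (t (i + 1)) (t i) := dist_nonneg
        calc _ ≤ C * Real.exp (-(as * j)) * dist (t (i + 1)) (t i) := h3
          _ ≤ C * 1 * dist (t (i + 1)) (t i) := by gcongr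
          _ ≤ C * 1 * ε := by
              have := hlink.1
              gcongr
          _ = C * ε := by ring
          _ ≤ e' := hε
      have h3 := transport (y' := ev f m (t (i + 1))) (n := n) (m := m) R hT he' he'4
        (r' := r + 2 * i * η) (by nlinarith) hbr hs0 hs.rep hs.link (fun l hl => by
          refine (hsp l hl).trans_lt (lt_of_le_of_lt ?_ h1)
          gcongr) (by
          rw [ev_neg_ev, ev_neg_ev]
          exact hst2) (by
          rw [ev_neg_ev, ev_neg_ev]
          exact hlink.1.trans_lt hεδ)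
      rw [← hη] at h3
      have h4 : r + 2 * ((i + 1 : ℕ) : ℝ) * η = r + 2 * i * η + 2 * η := by
        push_cast
        ring
      rw [h4]
      exact h3
  intro hq
  obtain ⟨k, hk, hj⟩ := key K le_rfl
  obtain ⟨k', s, -, hs0, hs⟩ := hmin K le_rfl k hk _ hj
  refine hs.not_att R hT 0 (Nat.zero_le _) ?_
  rw [hs0, htK]
  exact att_ev hT (att_ev hT hq m) n

theorem exists_slope {x z a as : ℝ} (ha : 0 < a) (has : 0 < as) (hx : 0 ≤ x)
    (h : x * z < a * as) : ∃ t : ℝ, 0 ≤ t ∧ x < a * t ∧ z * t < as := by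
  rcases le_or_gt z 0 with hz | hz
  · refine ⟨x / a + 1, by positivity, ?_, ?_⟩
    · have : a * (x / a + 1) = x + a := by field_simp
      linarith
    · have h1 : 0 ≤ x / a + 1 := by positivity
      nlinarith
  · have h1 : x / a < as / z := by
      rw [div_lt_div_iff₀ ha hz]
      linarith
    obtain ⟨t, h2, h3⟩ := exists_between h1
    have h4 : 0 ≤ x / a := by positivity
    refine ⟨t, by linarith, ?_, ?_⟩
    · rw [div_lt_iff₀ ha] at h2
      linarith
    · rw [lt_div_iff₀ hz] at h3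
      linarith

/-- **The minimal chain principle.** -/
theorem main (R : Rates f U e C aA a as) (hT : Trap f U)
    (hJ : ∀ r : ℝ, 0 < r → ∃ B : ℝ, JBound f U e r b B)
    (hS : ∀ ε : ℝ, 0 < ε → ∃ B : ℝ, ∀ m : ℕ, ∃ y : X, y ∉ U ∧ ∃ K : ℕ,
      (K : ℝ) ≤ B * Real.exp (bs * m) ∧ ∃ q ∈ Att f U, Chn f.symm e ε K (ev f (-m) y) q) :
    ¬ (b - aA) * (bs - as) < a * as := by
  intro hlt
  have hC := R.C1
  have he := R.e0
  have ha := R.a0
  have has := R.as0
  -- we may assume `aA ≤ b`
  set b' : ℝ := max b aA with hb'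
  have hlt' : (b' - aA) * (bs - as) < a * as := by
    rcases le_total b aA with h | h
    · rw [hb', max_eq_right h, sub_self, zero_mul]
      positivity
    · rw [hb', max_eq_left h]
      exact hlt
  have hab' : aA ≤ b' := le_max_right _ _
  obtain ⟨t, ht0, ht1, ht2⟩ := exists_slope ha has (sub_nonneg.2 hab') hlt'
  -- constants
  set e' : ℝ := e / 4 with he'
  have he'0 : 0 < e' := by positivity
  obtain ⟨δ, hδ, hbr⟩ := R.br e' he'0
  set r : ℝ := e / (4 * C) with hr
  have hr0 : 0 < r := by positivity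
  have hCr : 4 * (C * r) = e := by rw [hr]; field_simp
  obtain ⟨B₀, hB₀⟩ := hJ r hr0
  set B : ℝ := max B₀ 0 with hB
  have hB0 : 0 ≤ B := le_max_right _ _
  have hJB : JBound f U e r b' B := by
    intro m z hz
    obtain ⟨k, hk, hj⟩ := hB₀ m z hz
    refine ⟨k, hk.trans ?_, hj⟩
    have h1 : Real.exp (b * m) ≤ Real.exp (b' * m) := by
      apply Real.exp_le_exp.2
      have : b ≤ b' := le_max_left _ _
      gcongr
    calc B₀ * Real.exp (b * m) ≤ B * Real.exp (b * m) := by
          have : B₀ ≤ B := le_max_left _ _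
          gcongr
      _ ≤ B * Real.exp (b' * m) := by gcongr
  set ε : ℝ := min (e' / C) (δ / 4) with hε
  have hε0 : 0 < ε := by positivity
  have hε1 : C * ε ≤ e' := by
    have : ε ≤ e' / C := min_le_left _ _
    calc C * ε ≤ C * (e' / C) := by gcongr
      _ = e' := by field_simp
  have hε2 : ε < δ / 2 := by
    have : ε ≤ δ / 4 := min_le_right _ _
    linarith
  obtain ⟨B₁, hB₁⟩ := hS ε hε0
  -- limits
  have hx : 0 < a * t - (b' - aA) := by linarith
  have lim1 : Tendsto (fun n : ℕ => C * C * (2 * r) * B *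
      ((n : ℝ) * Real.exp (-((a * t - (b' - aA)) * n)) +
        Real.exp (-((a * t - (b' - aA)) * n)))) atTop (𝓝 0) := by
    have e1 : Tendsto (fun n : ℕ => (a * t - (b' - aA)) * (n : ℝ)) atTop atTop :=
      Tendsto.const_mul_atTop hx tendsto_natCast_atTop_atTop
    have e2 : Tendsto (fun n : ℕ => Real.exp (-((a * t - (b' - aA)) * n))) atTop (𝓝 0) :=
      Real.tendsto_exp_neg_atTop_nhds_zero.comp e1
    have e3 := (Real.tendsto_pow_mul_exp_neg_atTop_nhds_zero 1).comp e1
    have e4 : Tendsto (fun n : ℕ => (n : ℝ) * Real.exp (-((a * t - (b' - aA)) * n))) atTop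
        (𝓝 0) := by
      have e5 := e3.const_mul (a * t - (b' - aA))⁻¹
      rw [mul_zero] at e5
      refine e5.congr fun n => ?_
      simp only [Function.comp_apply, pow_one]
      field_simp
    have := (e4.add e2).const_mul (C * C * (2 * r) * B)
    simpa using this
  set c : ℝ := min as (as - (bs - as) * t) with hc
  have hc0 : 0 < c := by
    rw [hc]
    apply lt_min has
    linarith
  have lim2 : Tendsto (fun n : ℕ => 2 * |B₁| * Real.exp |bs - as| * C * e' *
      Real.exp (-(c * n))) atTop (𝓝 0) := by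
    have e1 : Tendsto (fun n : ℕ => c * (n : ℝ)) atTop atTop :=
      Tendsto.const_mul_atTop hc0 tendsto_natCast_atTop_atTop
    have e2 := (Real.tendsto_exp_neg_atTop_nhds_zero.comp e1).const_mul
      (2 * |B₁| * Real.exp |bs - as| * C * e')
    simpa using e2
  obtain ⟨n, hn1, hn2⟩ := ((lim1.eventually_lt_const (show (0 : ℝ) < δ / 2 by positivity)).and
    (lim2.eventually_lt_const hr0)).exists
  set m : ℕ := ⌈t * n⌉₊ with hm
  have hm1 : t * n ≤ m := Nat.le_ceil _
  have hm2 : (m : ℝ) < t * n + 1 := Nat.ceil_lt_add_one (by positivity)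
  obtain ⟨y, hy, K, hK, q, hq, hch⟩ := hB₁ m
  refine iterate (n := n) (m := m) R hT hab' hr0 hB0 hJB he'0 (by rw [he']; linarith) hCr.le hbr
    hε1 hε2 ?_ ?_ hy hch hq
  · refine lt_of_le_of_lt ?_ hn1
    have h3 : Real.exp ((b' - aA) * n - a * m) ≤
        Real.exp (-((a * t - (b' - aA)) * n)) := by
      apply Real.exp_le_exp.2
      nlinarith
    calc C * C * (2 * r) * B * (n + 1) * Real.exp ((b' - aA) * n - a * m)
        ≤ C * C * (2 * r) * B * (n + 1) * Real.exp (-((a * t - (b' - aA)) * n)) := by gcongr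
      _ = _ := by ring
  · refine le_trans ?_ hn2.le
    have hK' : (K : ℝ) ≤ |B₁| * Real.exp (bs * m) :=
      hK.trans (mul_le_mul_of_nonneg_right (le_abs_self _) (Real.exp_pos _).le)
    have h3 : Real.exp (bs * m) * Real.exp (-(as * (n + m : ℕ))) ≤
        Real.exp |bs - as| * Real.exp (-(c * n)) := by
      rw [← Real.exp_add, ← Real.exp_add]
      apply Real.exp_le_exp.2
      push_cast
      have hn0 : (0 : ℝ) ≤ n := Nat.cast_nonneg _
      have hm0 : (0 : ℝ) ≤ m := Nat.cast_nonneg _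
      have hc1 : c ≤ as := min_le_left _ _
      have hc2 : c ≤ as - (bs - as) * t := min_le_right _ _
      rcases le_total (bs - as) 0 with h | h
      · rw [abs_of_nonpos h]
        nlinarith
      · rw [abs_of_nonneg h]
        nlinarith
    calc 2 * (K : ℝ) * (C * Real.exp (-(as * (n + m : ℕ))) * e')
        ≤ 2 * (|B₁| * Real.exp (bs * m)) * (C * Real.exp (-(as * (n + m : ℕ))) * e') := by gcongr
      _ = 2 * |B₁| * C * e' * (Real.exp (bs * m) * Real.exp (-(as * (n + m : ℕ)))) := by ring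
      _ ≤ 2 * |B₁| * C * e' * (Real.exp |bs - as| * Real.exp (-(c * n))) := by gcongr
      _ = _ := by ring

end Pool.Agent.Lib.MP610fe3.N3
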