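import Pool.Agent.Lib.MP_610fe3_an.N3.Chain

/-!
# The pull back of a minimal chain
-/

open Set Filter Function
open scoped Topology

namespace Pool.Agent.Lib.MP610fe3.N3

open TM

variable {X : Type*} [MetricSpace X] {f : X ≃ₜ X}

/-- The quantitative hypotheses: `a` is a lower unstable rate, `aA` a lower unstable rate for
orbits in `U`, `as` a lower stable rate. -/
structure Rates (f : X ≃ₜ X) (U : Set X) (e C aA a as : ℝ) : Prop where
  e0 : 0 < e
  C1 : 1 ≤ C
  a0 : 0 < a
  as0 : 0 < as
  un : ∀ p q, q ∈ Sp f.symm e p → ∀ j : ℕ,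
    dist (ev f (-j) q) (ev f (-j) p) ≤ C * Real.exp (-(a * j)) * dist q p
  unA : ∀ p q, q ∈ Sp f.symm e p → ∀ i : ℕ, (∀ t < i, ev f (-(t : ℕ)) p ∈ U) →
    dist (ev f (-i) q) (ev f (-i) p) ≤ C * Real.exp (-(aA * i)) * dist q p
  st : ∀ p q, q ∈ Sp f e p → ∀ j : ℕ,
    dist (ev f j q) (ev f j p) ≤ C * Real.exp (-(as * j)) * dist q p
  br : ∀ e' : ℝ, 0 < e' → ∃ δ : ℝ, 0 < δ ∧ ∀ x y, dist x y < δ →
    ∃ z, z ∈ Sp f e' x ∧ z ∈ Sp f.symm e' y

variable {U : Set X} {e C aA a as r r' b B B' : ℝ} {k n m : ℕ} {w : X}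

theorem Rates.comb (R : Rates f U e C aA a as) {p q : X} (h : q ∈ Sp f.symm e p) {i j : ℕ}
    (hij : i ≤ j) (hU : ∀ t < i, ev f (-(t : ℕ)) p ∈ U) :
    dist (ev f (-j) q) (ev f (-j) p) ≤
      C * C * Real.exp (-(aA * i) - a * (j - i)) * dist q p := by
  obtain ⟨l, rfl⟩ := Nat.exists_eq_add_of_le hij
  have h1 := R.unA p q h i hU
  have h2 := R.un _ _ (Sp_symm_ev h i) l
  rw [← ev_add, ← ev_add, show -(l : ℤ) + -(i : ℤ) = -((i + l : ℕ) : ℤ) by push_cast; ring] at h2
  have hC := R.C1
  have h3 : 0 ≤ C * Real.exp (-(a * l)) := by positivity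
  calc dist (ev f (-((i + l : ℕ) : ℤ)) q) (ev f (-((i + l : ℕ) : ℤ)) p)
      ≤ C * Real.exp (-(a * l)) * dist (ev f (-i) q) (ev f (-i) p) := h2
    _ ≤ C * Real.exp (-(a * l)) * (C * Real.exp (-(aA * i)) * dist q p) :=
        mul_le_mul_of_nonneg_left h1 h3
    _ = C * C * (Real.exp (-(a * l)) * Real.exp (-(aA * i))) * dist q p := by ring
    _ = _ := by
        rw [← Real.exp_add]
        congr 3
        push_cast
        ring

theorem Rates.un_tendsto (R : Rates f U e C aA a as) {p q : X} (h : q ∈ Sp f.symm e p) :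
    Tendsto (fun n : ℕ => dist (ev f (-n) q) (ev f (-n) p)) atTop (𝓝 0) := by
  have h1 : Tendsto (fun n : ℕ => C * Real.exp (-(a * n)) * dist q p) atTop (𝓝 0) := by
    have h2 : Tendsto (fun n : ℕ => a * (n : ℝ)) atTop atTop :=
      Tendsto.const_mul_atTop R.a0 tendsto_natCast_atTop_atTop
    have h3 := (Real.tendsto_exp_neg_atTop_nhds_zero.comp h2)
    have h4 := (h3.const_mul C).mul_const (dist q p)
    simpa using h4
  exact squeeze_zero (fun _ => dist_nonneg) (fun n => R.un p q h n) h1

theorem Rates.st_tendsto (R : Rates f U e C aA a as) {p q : X} (h : q ∈ Sp f e p) :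
    Tendsto (fun n : ℕ => dist (ev f n q) (ev f n p)) atTop (𝓝 0) := by
  have h1 : Tendsto (fun n : ℕ => C * Real.exp (-(as * n)) * dist q p) atTop (𝓝 0) := by
    have h2 : Tendsto (fun n : ℕ => as * (n : ℝ)) atTop atTop :=
      Tendsto.const_mul_atTop R.as0 tendsto_natCast_atTop_atTop
    have h3 := (Real.tendsto_exp_neg_atTop_nhds_zero.comp h2)
    have h4 := (h3.const_mul C).mul_const (dist q p)
    simpa using h4
  exact squeeze_zero (fun _ => dist_nonneg) (fun n => R.st p q h n) h1

/-- `w` is joined to the repeller by `k` links. -/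
def Join (f : X ≃ₜ X) (U : Set X) (e r : ℝ) (k : ℕ) (w : X) : Prop :=
  ∃ q ∈ Rep f U, Chn f e r k w q

/-- A minimal chain. -/
structure MinCh (f : X ≃ₜ X) (U : Set X) (e r : ℝ) (k : ℕ) (s : ℕ → X) : Prop where
  rep : s k ∈ Rep f U
  link : ∀ i < k, Link f e r (s i) (s (i + 1))
  mini : ∀ l ≤ k, ∀ k' : ℕ, Join f U e r k' (s l) → k - l ≤ k'

theorem Join.exists_min (h : Join f U e r k w) :
    ∃ (k' : ℕ) (s : ℕ → X), k' ≤ k ∧ s 0 = w ∧ MinCh f U e r k' s := by
  classical
  have hex : ∃ k, Join f U e r k w := ⟨k, h⟩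
  obtain ⟨q, hq, s, hs0, hsk, hs⟩ := Nat.find_spec hex
  refine ⟨Nat.find hex, s, Nat.find_le h, hs0, by rw [hsk]; exact hq, hs, ?_⟩
  intro l hl k' hk'
  obtain ⟨q', hq', hc⟩ := hk'
  have h1 := chn_head hs hl
  rw [hs0] at h1
  have h2 : Nat.find hex ≤ l + k' := Nat.find_le ⟨q', hq', h1.trans hc⟩
  omega

variable [CompactSpace X]

theorem MinCh.not_att (R : Rates f U e C aA a as) (hT : Trap f U) {s : ℕ → X}
    (hs : MinCh f U e r k s) : ∀ l ≤ k, s l ∉ Att f U := by
  intro l hl hA
  have key : ∀ i, l + i ≤ k → s (l + i) ∈ Att f U := by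
    intro i
    induction i with
    | zero => intro _; exact hA
    | succ i ih =>
      intro hi
      have h1 := ih (by omega)
      have h2 := hs.link (l + i) (by omega)
      exact att_sat hT h1 (R.un_tendsto h2.2)
  have h1 := key (k - l) (by omega)
  rw [Nat.add_sub_cancel' hl] at h1
  exact Set.disjoint_left.1 att_rep_disjoint h1 hs.rep

/-- The bound for the number of links from the points outside `U` to the repeller. -/
def JBound (f : X ≃ₜ X) (U : Set X) (e r b B : ℝ) : Prop :=
  ∀ (m : ℕ) (z : X), z ∉ U → ∃ k : ℕ, (k : ℝ) ≤ B * Real.exp (b * m) ∧ Join f U e r k (ev f m z)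

omit [CompactSpace X] in
theorem JBound.mono_r (h : JBound f U e r b B) (hr : r ≤ r') : JBound f U e r' b B := by
  intro m z hz
  obtain ⟨k, hk, q, hq, hc⟩ := h m z hz
  exact ⟨k, hk, q, hq, hc.mono hr⟩

/-- **Spread of a minimal chain.** -/
theorem MinCh.spread (R : Rates f U e C aA a as) (hT : Trap f U) (hJ : JBound f U e r b B)
    (hr : 0 ≤ r) (hB0 : 0 ≤ B) (hBB' : B ≤ B') (hab : aA ≤ b) {s : ℕ → X}
    (hs : MinCh f U e r k s) (hk : (k : ℝ) ≤ B' * Real.exp (b * n)) :
    ∀ l ≤ k, dist (ev f (-((n + m : ℕ) : ℤ)) (s 0)) (ev f (-((n + m : ℕ) : ℤ)) (s l)) ≤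
      C * C * r * B' * (n + 1) * Real.exp ((b - aA) * n - a * m) := by
  classical
  have hB'0 : 0 ≤ B' := hB0.trans hBB'
  -- exit times
  have hex : ∀ l : ℕ, ∃ i : ℕ, l ≤ k → ev f (-(i : ℤ)) (s l) ∉ U := by
    intro l
    by_cases hl : l ≤ k
    · have h1 := hs.not_att R hT l hl
      simp only [Att, mem_ofPred_eq, not_forall] at h1
      obtain ⟨i, hi⟩ := h1
      exact ⟨i, fun _ => hi⟩
    · exact ⟨0, fun h => absurd h hl⟩
  have hmin : ∀ l : ℕ, ∃ i : ℕ, l ≤ k → ev f (-(i : ℤ)) (s l) ∉ U ∧
      ∀ t < i, ev f (-(t : ℕ)) (s l) ∈ U := by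
    intro l
    by_cases hl : l ≤ k
    · have h1 : ∃ i : ℕ, ev f (-(i : ℤ)) (s l) ∉ U := by
        obtain ⟨i, hi⟩ := hex l
        exact ⟨i, hi hl⟩
      refine ⟨Nat.find h1, fun _ => ⟨Nat.find_spec h1, fun t ht => ?_⟩⟩
      have := Nat.find_min h1 ht
      push Not at this
      exact this
    · exact ⟨0, fun h => absurd h hl⟩
  choose E hE using hmin
  -- the position in the chain is bounded by the exit time
  have hpos : ∀ l ≤ k, ((k - l : ℕ) : ℝ) ≤ B * Real.exp (b * E l) := by
    intro l hl
    obtain ⟨h1, -⟩ := hE l hl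
    obtain ⟨k', hk', hj⟩ := hJ (E l) _ h1
    rw [ev_ev_neg] at hj
    have h2 := hs.mini l hl k' hj
    exact (Nat.cast_le.2 h2).trans hk'
  set t : ℕ → ℕ := fun l => min (E l) n with ht
  have hb0 : 0 ≤ b ∨ b < 0 := le_or_gt 0 b
  -- counting
  have hcount : ∀ i ∈ Finset.range (n + 1),
      (((Finset.range k).filter (fun l => t l = i)).card : ℝ) ≤ B' * Real.exp (b * i) := by
    intro i hi
    rw [Finset.mem_range] at hi
    rcases Nat.lt_or_ge i n with hin | hin
    · -- `t l = i` means `E l = i`
      set q : ℕ := ⌊B * Real.exp (b * i)⌋₊ with hq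
      have hsub : (Finset.range k).filter (fun l => t l = i) ⊆ Finset.Ico (k - q) k := by
        intro l hl
        rw [Finset.mem_filter, Finset.mem_range] at hl
        obtain ⟨hlk, hli⟩ := hl
        have h1 : E l = i := by
          simp only [ht] at hli
          omega
        have h2 := hpos l hlk.le
        rw [h1] at h2
        have h3 : k - l ≤ q := Nat.le_floor h2
        rw [Finset.mem_Ico]
        omega
      have h1 := Finset.card_le_card hsub
      rw [Nat.card_Ico] at h1
      have h2 : (q : ℝ) ≤ B * Real.exp (b * i) := Nat.floor_le (by positivity)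
      have h3 : ((Finset.range k).filter (fun l => t l = i)).card ≤ q := by omega
      calc (((Finset.range k).filter (fun l => t l = i)).card : ℝ) ≤ q := by exact_mod_cast h3
        _ ≤ B * Real.exp (b * i) := h2
        _ ≤ B' * Real.exp (b * i) := by gcongr
    · have hin' : i = n := by omega
      subst hin'
      calc (((Finset.range k).filter (fun l => t l = i)).card : ℝ)
          ≤ ((Finset.range k).card : ℝ) := by exact_mod_cast Finset.card_filter_le _ _
        _ = k := by rw [Finset.card_range]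
        _ ≤ _ := hk
  have hC := R.C1
  -- each link
  have hlink : ∀ l < k, dist (ev f (-((n + m : ℕ) : ℤ)) (s l))
      (ev f (-((n + m : ℕ) : ℤ)) (s (l + 1))) ≤
      C * C * r * Real.exp (-(aA * t l) - a * ((n + m : ℕ) - t l)) := by
    intro l hl
    have h1 := R.comb (hs.link l hl).2 (i := t l) (j := n + m)
      (by simp only [ht]; omega) (fun u hu => (hE l hl.le).2 u (by
        simp only [ht] at hu
        omega))
    rw [dist_comm]
    calc _ ≤ C * C * Real.exp (-(aA * t l) - a * ((n + m : ℕ) - t l)) *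
          dist (s (l + 1)) (s l) := h1
      _ ≤ C * C * Real.exp (-(aA * t l) - a * ((n + m : ℕ) - t l)) * r := by
          have h2 := (hs.link l hl).1
          have h3 : 0 ≤ C * C * Real.exp (-(aA * t l) - a * ((n + m : ℕ) - t l)) := by
            positivity
          exact mul_le_mul_of_nonneg_left h2 h3
      _ = _ := by ring
  -- the sum over the links
  have hsum : ∑ l ∈ Finset.range k, Real.exp (-(aA * t l) - a * ((n + m : ℕ) - t l)) ≤
      B' * (n + 1) * Real.exp ((b - aA) * n - a * m) := by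
    have h1 : ∀ l ∈ Finset.range k, t l ∈ Finset.range (n + 1) := by
      intro l _
      rw [Finset.mem_range]
      simp only [ht]
      omega
    rw [← Finset.sum_fiberwise_of_maps_to h1]
    calc ∑ i ∈ Finset.range (n + 1), ∑ l ∈ (Finset.range k).filter (fun l => t l = i),
          Real.exp (-(aA * t l) - a * ((n + m : ℕ) - t l))
        = ∑ i ∈ Finset.range (n + 1), (((Finset.range k).filter (fun l => t l = i)).card : ℝ) *
            Real.exp (-(aA * i) - a * ((n + m : ℕ) - i)) := by
          apply Finset.sum_congr rfl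
          intro i _
          rw [← nsmul_eq_mul, ← Finset.sum_const]
          apply Finset.sum_congr rfl
          intro l hl
          rw [Finset.mem_filter] at hl
          rw [hl.2]
      _ ≤ ∑ i ∈ Finset.range (n + 1), B' * Real.exp ((b - aA) * n - a * m) := by
          apply Finset.sum_le_sum
          intro i hi
          have h2 := hcount i hi
          rw [Finset.mem_range] at hi
          have h3 : (i : ℝ) ≤ n := by
            have : i ≤ n := by omega
            exact_mod_cast this
          calc (((Finset.range k).filter (fun l => t l = i)).card : ℝ) *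
                Real.exp (-(aA * i) - a * ((n + m : ℕ) - i))
              ≤ B' * Real.exp (b * i) * Real.exp (-(aA * i) - a * ((n + m : ℕ) - i)) :=
                mul_le_mul_of_nonneg_right h2 (Real.exp_pos _).le
            _ = B' * Real.exp (b * i + (-(aA * i) - a * ((n + m : ℕ) - i))) := by
                rw [Real.exp_add]; ring
            _ ≤ _ := by
                apply mul_le_mul_of_nonneg_left _ hB'0
                apply Real.exp_le_exp.2
                have ha := R.a0
                push_cast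
                nlinarith
      _ = _ := by
          rw [Finset.sum_const, Finset.card_range, nsmul_eq_mul]
          push_cast
          ring
  intro l hl
  rcases Nat.eq_zero_or_pos l with rfl | hl0
  · rw [dist_self]
    positivity
  · calc dist (ev f (-((n + m : ℕ) : ℤ)) (s 0)) (ev f (-((n + m : ℕ) : ℤ)) (s l))
        ≤ ∑ i ∈ Finset.range l, dist (ev f (-((n + m : ℕ) : ℤ)) (s i))
            (ev f (-((n + m : ℕ) : ℤ)) (s (i + 1))) :=
          dist_le_range_sum_dist (fun i => ev f (-((n + m : ℕ) : ℤ)) (s i)) l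
      _ ≤ ∑ i ∈ Finset.range l, C * C * r *
            Real.exp (-(aA * t i) - a * ((n + m : ℕ) - t i)) := by
          apply Finset.sum_le_sum
          intro i hi
          rw [Finset.mem_range] at hi
          exact hlink i (by omega)
      _ ≤ ∑ i ∈ Finset.range k, C * C * r *
            Real.exp (-(aA * t i) - a * ((n + m : ℕ) - t i)) := by
          apply Finset.sum_le_sum_of_subset_of_nonneg
          · intro i hi
            rw [Finset.mem_range] at hi ⊢
            omega
          · intro i _ _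
            positivity
      _ = C * C * r * ∑ i ∈ Finset.range k,
            Real.exp (-(aA * t i) - a * ((n + m : ℕ) - t i)) := by rw [Finset.mul_sum]
      _ ≤ C * C * r * (B' * (n + 1) * Real.exp ((b - aA) * n - a * m)) :=
          mul_le_mul_of_nonneg_left hsum (by positivity)
      _ = _ := by ring

end Pool.Agent.Lib.MP610fe3.N3
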