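import Pool.Agent.Lib.MP_610fe3_an.N3.Min

/-!
# Transport of a chain along a stable step
-/

open Set Filter Function
open scoped Topology

namespace Pool.Agent.Lib.MP610fe3.N3

open TM

variable {X : Type*} [MetricSpace X] [CompactSpace X] {f : X ≃ₜ X}
variable {U : Set X} {e C aA a as r r' b B B' e' δ ε : ℝ} {k n m : ℕ} {y y' : X}

/-- **Transport.** -/
theorem transport (R : Rates f U e C aA a as) (hT : Trap f U) (he' : 0 < e') (he'4 : 4 * e' ≤ e)
    (hr' : 2 * (C * r') ≤ e)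
    (hbr : ∀ x z, dist x z < δ → ∃ w, w ∈ Sp f e' x ∧ w ∈ Sp f.symm e' z)
    {s : ℕ → X} (hs0 : s 0 = ev f n y) (hsk : s k ∈ Rep f U)
    (hs : ∀ i < k, Link f e r' (s i) (s (i + 1)))
    (hsp : ∀ l ≤ k, dist (ev f (-((n + m : ℕ) : ℤ)) (s 0)) (ev f (-((n + m : ℕ) : ℤ)) (s l)) <
      δ / 2)
    (hy : ev f (-m) y' ∈ Sp f e' (ev f (-m) y))
    (hyd : dist (ev f (-m) y') (ev f (-m) y) < δ / 2) :
    Join f U e (r' + 2 * (C * Real.exp (-(as * (n + m : ℕ))) * e')) k (ev f n y') := by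
  have hC := R.C1
  set N : ℕ := n + m with hN
  have hκ0 : ev f (-(N : ℤ)) (s 0) = ev f (-m) y := by
    rw [hs0, ← ev_add]
    congr 1
    rw [hN]
    push_cast
    ring
  -- the brackets
  have hex : ∀ l : ℕ, ∃ w : X, (l = 0 → w = ev f (-m) y') ∧ (l ≤ k →
      w ∈ Sp f e' (ev f (-(N : ℤ)) (s l)) ∧ w ∈ Sp f.symm e' (ev f (-m) y')) := by
    intro l
    rcases Nat.eq_zero_or_pos l with rfl | hl0
    · exact ⟨_, fun _ => rfl, fun _ => ⟨by rw [hκ0]; exact hy, Sp_self he'.le _⟩⟩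
    · by_cases hl : l ≤ k
      · have h1 : dist (ev f (-(N : ℤ)) (s l)) (ev f (-m) y') < δ := by
          have h2 := hsp l hl
          have h3 := dist_triangle (ev f (-(N : ℤ)) (s l)) (ev f (-(N : ℤ)) (s 0))
            (ev f (-m) y')
          rw [dist_comm (ev f (-(N : ℤ)) (s l)) (ev f (-(N : ℤ)) (s 0))] at h3
          have h4 : dist (ev f (-(N : ℤ)) (s 0)) (ev f (-m) y') < δ / 2 := by
            rw [hκ0, dist_comm]
            exact hyd
          linarith
        obtain ⟨w, hw⟩ := hbr _ _ h1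
        exact ⟨w, fun h => absurd h hl0.ne', fun _ => hw⟩
      · exact ⟨ev f (-m) y', fun _ => rfl, fun h => absurd h hl⟩
  choose κ hκ using hex
  have hκ1 : ∀ l ≤ k, κ l ∈ Sp f e' (ev f (-(N : ℤ)) (s l)) := fun l hl => ((hκ l).2 hl).1
  have hκ2 : ∀ l ≤ k, κ l ∈ Sp f.symm e' (ev f (-m) y') := fun l hl => ((hκ l).2 hl).2
  have hsN : ∀ l (j : ℤ), ev f (j + N) (ev f (-(N : ℤ)) (s l)) = ev f j (s l) := by
    intro l j
    rw [← ev_add]
    congr 1
    ring
  -- distance between the old and the new points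
  have hd : ∀ l ≤ k, ∀ j : ℕ, j ≤ N →
      dist (ev f (-(j : ℤ)) (ev f N (κ l))) (ev f (-(j : ℤ)) (s l)) ≤ e' := by
    intro l hl j hj
    have h1 := hκ1 l hl (N - j)
    have h2 : ((N - j : ℕ) : ℤ) = -(j : ℤ) + N := by omega
    rw [h2, hsN, ev_add] at h1
    exact h1
  have hd0 : ∀ l ≤ k, dist (ev f N (κ l)) (s l) ≤ C * Real.exp (-(as * N)) * e' := by
    intro l hl
    have h1 := R.st _ _ (Sp_mono (by linarith [R.e0]) (hκ1 l hl)) N
    have h2 := hsN l 0
    rw [zero_add, ev_zero] at h2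
    rw [h2] at h1
    refine h1.trans ?_
    have h3 : 0 ≤ C * Real.exp (-(as * N)) := by positivity
    exact mul_le_mul_of_nonneg_left (Sp_dist (hκ1 l hl)) h3
  refine ⟨ev f N (κ k), ?_, fun l => ev f N (κ l), ?_, rfl, fun i hi => ⟨?_, ?_⟩⟩
  · refine rep_sat hT hsk ?_
    have h1 := R.st_tendsto (Sp_mono (show e' ≤ e by linarith [R.e0]) (hκ1 k le_rfl))
    have h2 := h1.comp (tendsto_add_atTop_nat N)
    refine h2.congr fun j => ?_
    simp only [Function.comp_apply]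
    rw [Nat.cast_add, hsN, ev_add]
  · change ev f N (κ 0) = _
    rw [(hκ 0).1 rfl, ← ev_add]
    congr 1
    rw [hN]
    push_cast
    ring
  · have h1 := hd0 i hi.le
    have h2 := hd0 (i + 1) hi
    have h3 := (hs i hi).1
    have h4 := dist_triangle4 (ev f N (κ (i + 1))) (s (i + 1)) (s i) (ev f N (κ i))
    rw [dist_comm (s i)] at h4
    linarith
  · rw [mem_Sp_symm]
    intro j
    rcases le_or_gt j N with hj | hj
    · have h1 := hd i hi.le j hj
      have h2 := hd (i + 1) hi j hj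
      have h3 := R.un _ _ (hs i hi).2 j
      have h4 := dist_triangle4 (ev f (-(j : ℤ)) (ev f N (κ (i + 1)))) (ev f (-(j : ℤ)) (s (i + 1)))
        (ev f (-(j : ℤ)) (s i)) (ev f (-(j : ℤ)) (ev f N (κ i)))
      rw [dist_comm (ev f (-(j : ℤ)) (s i))] at h4
      have h5 : dist (ev f (-(j : ℤ)) (s (i + 1))) (ev f (-(j : ℤ)) (s i)) ≤ C * r' := by
        have h6 : Real.exp (-(a * j)) ≤ 1 := by
          rw [Real.exp_le_one_iff]
          have := R.a0
          have : 0 ≤ a * j := by positivity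
          linarith
        have h7 := (hs i hi).1
        have h8 : (0 : ℝ) ≤ dist (s (i + 1)) (s i) := dist_nonneg
        calc _ ≤ C * Real.exp (-(a * j)) * dist (s (i + 1)) (s i) := h3
          _ ≤ C * 1 * dist (s (i + 1)) (s i) := by gcongr
          _ ≤ C * 1 * r' := by gcongr
          _ = C * r' := by ring
      linarith
    · obtain ⟨t, rfl⟩ := Nat.exists_eq_add_of_lt hj
      have h1 := mem_Sp_symm.1 (hκ2 i hi.le) (t + 1)
      have h2 := mem_Sp_symm.1 (hκ2 (i + 1) hi) (t + 1)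
      rw [← ev_add, ← ev_add,
        show -((N + t + 1 : ℕ) : ℤ) + (N : ℤ) = -((t + 1 : ℕ) : ℤ) by push_cast; ring]
      have h3 := dist_triangle_right (ev f (-((t + 1 : ℕ) : ℤ)) (κ (i + 1)))
        (ev f (-((t + 1 : ℕ) : ℤ)) (κ i)) (ev f (-((t + 1 : ℕ) : ℤ)) (ev f (-m) y'))
      have he0 := R.e0
      linarith

end Pool.Agent.Lib.MP610fe3.N3
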